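import Pool.Agent.H90.SPW.Targets

/-!
# Target `T_REC`: one level
-/

set_option autoImplicit false

open Finset
open scoped BigOperators Classical

namespace Pool.Agent.H96.SPA

open Pool.Agent.H90.SPW

lemma SM_nonneg {X E Y : Type} [Fintype X] [Fintype E] (c : Ch X E Y) (Lam : ℝ)
    (k h' : ℕ) (x' : X) (t : ℕ) (e : E) (y : Y) : 0 ≤ c.SM Lam k h' x' t e y := by
  unfold Ch.SM
  refine mul_nonneg (c.use_nonneg y e) (Finset.sum_nonneg fun d _ => mul_nonneg ?_ (c.P_nonneg _ _ _))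
  split
  · exact c.P_nonneg _ _ _
  · exact le_rfl

lemma half (hRB : T_RB) (hRC : T_RC) (hRD : T_RD) (hBWB : T_BWB) (hE2 : T_E2) (hPJ : T_PJ)
    (X E Y : Type) [Fintype X] [Fintype E] [Fintype Y] (c : Ch X E Y) (Lam : ℝ) (k h' : ℕ)
    (kap b : ℝ) (hL : Real.exp 1 < Lam) (hh : 0 < h') (hk : 0 < kap) (hb : 0 ≤ b)
    (hu : c.rev.UseLe (k * h') kap) (x x' : X) :
    c.I1 Lam k h' x x' ≤ Lam * (b * (k * (-(c.P (k * h') x x' * Real.log (c.P (k * h') x x')) /
      (Real.log Lam - 1))) + 8 * kap * Real.exp (-(b / (4 * kap))) *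
        ((k * h' : ℝ) * Fintype.card X)) := by
  have hL0 : 0 < Lam := lt_trans (Real.exp_pos 1) hL
  have hlog : 0 < Real.log Lam - 1 := by
    have h1 : Real.log (Real.exp 1) < Real.log Lam := Real.log_lt_log (Real.exp_pos 1) hL
    rw [Real.log_exp] at h1
    linarith
  refine (hRB X E Y c Lam hL0.le k h' x x').trans (mul_le_mul_of_nonneg_left ?_ hL0.le)
  set tau : ℝ := 8 * kap * Real.exp (-(b / (4 * kap))) with htau
  have htau0 : 0 ≤ tau := by positivity
  have h1 : ∑ y, ∑ t ∈ range (k * h'), ∑ e, c.BW t x (c.src e) y * c.SM Lam k h' x' t e y ≤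
      b * ∑ y, ∑ t ∈ range (k * h'), ∑ e, c.P t x (c.src e) * c.SM Lam k h' x' t e y +
        tau * ∑ y, ∑ t ∈ range (k * h'), ∑ e, c.SM Lam k h' x' t e y := by
    rw [Finset.mul_sum, Finset.mul_sum, ← Finset.sum_add_distrib]
    refine Finset.sum_le_sum fun y _ => ?_
    rw [Finset.mul_sum, Finset.mul_sum, ← Finset.sum_add_distrib]
    refine Finset.sum_le_sum fun t ht => ?_
    rw [Finset.mul_sum, Finset.mul_sum, ← Finset.sum_add_distrib]
    refine Finset.sum_le_sum fun e _ => ?_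
    have h2 := hBWB X E Y c (k * h') kap hk hu t (Finset.mem_range.1 ht).le x (c.src e) y b hb
    have h3 := mul_le_mul_of_nonneg_right h2 (SM_nonneg c Lam k h' x' t e y)
    calc c.BW t x (c.src e) y * c.SM Lam k h' x' t e y
        ≤ (b * c.P t x (c.src e) + tau) * c.SM Lam k h' x' t e y := h3
      _ = b * (c.P t x (c.src e) * c.SM Lam k h' x' t e y) + tau * c.SM Lam k h' x' t e y := by ring
  refine h1.trans (add_le_add (mul_le_mul_of_nonneg_left ?_ hb)
    (mul_le_mul_of_nonneg_left (hRD X E Y c Lam k h' x') htau0))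
  rw [hRC X E Y c Lam k h' hh x x']
  have h4 : ∀ i ∈ range k, ∑ a, ∑ d, c.P (i * h') x a * (∑ y, c.rev.OccA Lam h' d a y) *
      c.P ((k - 1 - i) * h') d x' ≤ -(c.P (k * h') x x' * Real.log (c.P (k * h') x x')) /
      (Real.log Lam - 1) := by
    intro i hi
    have hik : i < k := Finset.mem_range.1 hi
    have h5 := hPJ X E Y c (i * h') h' ((k - 1 - i) * h') x x'
    have h6 : i * h' + h' + (k - 1 - i) * h' = k * h' := by
      obtain ⟨d, rfl⟩ : ∃ d, k = i + 1 + d := ⟨k - (i + 1), by omega⟩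
      have h7 : i + 1 + d - 1 - i = d := by omega
      rw [h7]
      ring
    rw [h6] at h5
    rw [le_div_iff₀ hlog]
    refine le_trans ?_ h5
    rw [Finset.sum_mul]
    refine Finset.sum_le_sum fun a _ => ?_
    rw [Finset.sum_mul]
    refine Finset.sum_le_sum fun d _ => ?_
    have h8 := hE2 X E Y c.rev Lam hL.le h' d a
    rw [c.rev_P] at h8
    have h9 : 0 ≤ c.P (i * h') x a * c.P ((k - 1 - i) * h') d x' :=
      mul_nonneg (c.P_nonneg _ _ _) (c.P_nonneg _ _ _)
    have h10 := mul_le_mul_of_nonneg_left h8 h9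
    calc c.P (i * h') x a * (∑ y, c.rev.OccA Lam h' d a y) * c.P ((k - 1 - i) * h') d x' *
          (Real.log Lam - 1)
        = c.P (i * h') x a * c.P ((k - 1 - i) * h') d x' *
          ((Real.log Lam - 1) * ∑ y, c.rev.OccA Lam h' d a y) := by ring
      _ ≤ c.P (i * h') x a * c.P ((k - 1 - i) * h') d x' *
          -(c.P h' a d * Real.log (c.P h' a d)) := h10
      _ = c.P (i * h') x a * -(c.P h' a d * Real.log (c.P h' a d)) *
          c.P ((k - 1 - i) * h') d x' := by ring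
  refine (Finset.sum_le_sum h4).trans ?_
  rw [Finset.sum_const, Finset.card_range, nsmul_eq_mul]

theorem pf_REC (hRT : T_RT) (hRA : T_RA) (hRB : T_RB) (hRC : T_RC) (hRD : T_RD) (hBWB : T_BWB)
    (hE2 : T_E2) (hPJ : T_PJ) : T_REC := by
  intro X E Y _ _ _ c Lam k h' kap b hL hh hk hb hu hur x x'
  have h1 := hRT X E Y c Lam k h' hh x x'
  have h2 := hRA X E Y c Lam k h' hh x x'
  have h3 := half hRB hRC hRD hBWB hE2 hPJ X E Y c Lam k h' kap b hL hh hk hb hur x x'
  have h4 := half hRB hRC hRD hBWB hE2 hPJ X E Y c.rev Lam k h' kap b hL hh hk hb hu x' x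
  rw [c.rev_P] at h4
  linarith

end Pool.Agent.H96.SPA
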